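import Mathlib
import Pool.Agent.H1.STSGroup.Defs
import Pool.Agent.H1.STSGroup.Proof

namespace Pool.Agent.Results.MP_828a2e_co.PolySTS

open Pool.Agent.H1.STSGroup

/-- Q1 in full, with the answer yes: there is a constant `c` such that every finite group `G` acts
faithfully on a Steiner triple system of order at most `|G| ^ c`.  Moreover order at most
`144 * |G| ^ 2` suffices. -/
theorem result.{u} :
    (∃ c : ℕ, ∀ (G : Type u) [Group G] [Finite G],
      ∃ (v : ℕ) (X : STS (Fin v)), v ≤ Nat.card G ^ c ∧ X.FaithfulAction G) ∧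
    (∀ (G : Type u) [Group G] [Finite G],
      ∃ (v : ℕ) (X : STS (Fin v)), v ≤ 144 * Nat.card G ^ 2 ∧ X.FaithfulAction G) :=
  main

end Pool.Agent.Results.MP_828a2e_co.PolySTS
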